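import Pool.Agent.H53.Per.Iface
import Pool.Agent.H52.Tri.Scale
import Pool.Agent.H74.Tri.MLR

set_option autoImplicit false

/-! MP_2e6055, module F5 (helper20): TBP (from the visit probability to both colours outside a small
ball around the tip): a ring of the other colour around the face ahead, NE. -/

namespace Pool.Agent.H20.Per

open Pool.Agent.H7.UC Pool.Agent.H74.Tri Pool.Agent.H75.Perc Pool.Agent.H75.Lv Pool.Agent.H53.Per
open Pool.Agent.H52.Tri (AX inA Pa TA_iff_adjF no_black_ring no_white_ring)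

theorem pa_of_jn {S : ℤ × ℤ → Prop} {T : Set Fc} (h : ∀ z, z ∈ T → S z) {u v : ℤ × ℤ} (hu : S u)
    (hP : Jn T u v) : Pa S u v :=
  ⟨hu, Relation.ReflTransGen.mono (fun _ _ hab => ⟨TA_iff_adjF.2 hab.2, h _ hab.1⟩) _ _ hP⟩

/-- the trivial chart -/
def C0 : Ch := ⟨false, 1, 1, Or.inl rfl, Or.inl rfl, (0, 0)⟩

theorem C0_X (f : Fc) : C0.X f = f.1 := by unfold C0 Ch.X; simp
theorem C0_Y (f : Fc) : C0.Y f = f.2 := by unfold C0 Ch.Y; simp

theorem jn_box {T : Set Fc} {v : Fc} {r : ℤ} (hT : ∀ f ∈ Bx v r, f ∈ T) (hr : 0 ≤ r) {f : Fc}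
    (hf : f ∈ Bx v r) : Jn T v f := by
  have key : ∀ g : Fc, g ∈ Bx v r ↔ g ∈ C0.Rc (v.1 - r) (v.1 + r) (v.2 - r) (v.2 + r) := by
    intro g
    unfold Ch.Rc
    simp only [Set.mem_ofPred_eq, C0_X, C0_Y]
    rw [Pool.Agent.H75.Lv.mem_Bx, abs_le, abs_le]
    omega
  refine C0.jn_rect (S := T) (a := v.1 - r) (b := v.1 + r) (c := v.2 - r) (d := v.2 + r) ?_ ?_ ?_
  · intro g hg
    exact hT g ((key g).2 hg)
  · rw [← key, Pool.Agent.H75.Lv.mem_Bx]
    simp [hr]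
  · exact (key f).1 hf

/-- NE -/
theorem ne : NE := by
  intro W ω c hc p hp hl hr n
  induction n with
  | zero => exact ⟨hl, hr⟩
  | succ n ih =>
    obtain ⟨h1, h2⟩ := ih
    have hb := hp.orb (n := n)
    have hph : ph (orb ω p n) ∉ W := by
      intro hW
      have e1 := hc _ h1 ⟨_, hW, adjF_symm (adj_hl _)⟩
      have e2 := hc _ h2 ⟨_, hW, adjF_symm (adj_hr _)⟩
      have h3 := hb.1
      rw [e1, ← e2, hb.2] at h3
      exact absurd h3 (by decide)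
    rw [orb_succ]
    cases hcol : ω (ph (orb ω p n))
    · obtain ⟨e1, e2⟩ := stp_white hcol
      rw [e1, e2]
      exact ⟨h1, hph⟩
    · obtain ⟨e1, e2⟩ := stp_black hcol
      rw [e1, e2]
      exact ⟨hph, h2⟩

/-- a ring of colour `b` (or off `U`) around `x`; all outer faces touched by the component of `v` off
`Bx x S` have the colour `b`: then no face near `v` is ever ahead. -/
theorem no_ask {U : Finset Fc} {col ω : Fc → Bool} {x v : Fc} {S r : ℤ} {b : Bool} {w : ℕ}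
    (hω : ∀ f, f ∉ U → ω f = col f)
    (hb : ∀ f g, Jn {a | a ∈ U ∧ a ∉ Bx x S} v f → g ∉ U → adjF f g → col g = b)
    (hS : S < w) (hr0 : 0 ≤ r) (hBU : Bx v r ⊆ U)
    (hout : ∀ f ∈ Bx v r, f.1 < x.1 - (2 * w : ℕ) ∨ x.1 + (2 * w : ℕ) < f.1 ∨
      f.2 < x.2 - (2 * w : ℕ) ∨ x.2 + (2 * w : ℕ) < f.2)
    (hring : AX x w (2 * w) (fun z => z ∉ U ∨ ω z = b)) {q : Pos} (hq : IsTip U col q) (i : ℕ) :
    ph (orb ω q i) ∉ Bx v r := by
  obtain ⟨T, hT⟩ : ∃ T : Set Fc, T = {z | z ∈ U ∧ ¬ (inA x w (2 * w) z ∧ (z ∉ U ∨ ω z = b))} :=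
    ⟨_, rfl⟩
  have hTm : ∀ z, z ∈ T ↔ z ∈ U ∧ ¬ (inA x w (2 * w) z ∧ (z ∉ U ∨ ω z = b)) := by
    intro z; rw [hT]; rfl
  have hvb : v ∈ Bx v r := by
    rw [Pool.Agent.H75.Lv.mem_Bx]; simp [hr0]
  have hBT : ∀ f ∈ Bx v r, f ∈ T := by
    intro f hf
    rw [hTm]
    refine ⟨hBU hf, ?_⟩
    rintro ⟨⟨⟨h1, h2⟩, h3⟩, -⟩
    have := hout f hf
    omega
  have hvT : v ∈ T := hBT v hvb
  obtain ⟨W, hW⟩ : ∃ W : Set Fc, W = {a | Jn T v a} := ⟨_, rfl⟩
  have hWm : ∀ z, z ∈ W ↔ Jn T v z := by intro z; rw [hW]; rfl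
  have hWT : ∀ z, z ∈ W → z ∈ T := fun z hz => ((hWm z).1 hz).mem hvT
  -- `W` does not meet the inside
  have hin : ∀ z, Jn T v z → z ∉ Bx x S := by
    intro z hz hzB
    rw [Pool.Agent.H75.Lv.mem_Bx, abs_le, abs_le] at hzB
    have h1 : Jn T z v := hz.symm hvT
    have hzT : z ∈ T := hz.mem hvT
    have h2 : Pa (fun a => a ∈ T) z v := pa_of_jn (fun a ha => ha) hzT h1
    obtain ⟨a, ha1, ha2, ha3⟩ := hring.block (by omega) h2 (by omega) (hout v hvb)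
    exact ((hTm a).1 ha1).2 ⟨ha3, ha2⟩
  have hjn : ∀ z, Jn T v z → Jn {a | a ∈ U ∧ a ∉ Bx x S} v z := by
    intro z hz
    induction hz with
    | refl => exact Jn.refl _
    | @tail a c hab hbc ih =>
      have hc : Jn T v c := Relation.ReflTransGen.tail hab hbc
      exact ih.step ⟨((hTm c).1 hbc.1).1, hin c hc⟩ hbc.2
  have hcol : ∀ f, f ∉ W → tch W f → ω f = b := by
    rintro f hf ⟨g, hg, hfg⟩
    have hg' := (hWm g).1 hg
    by_cases hfU : f ∈ U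
    · have hfT : f ∉ T := by
        intro h
        exact hf ((hWm f).2 (hg'.step h (adjF_symm hfg)))
      have h1 : inA x w (2 * w) f ∧ (f ∉ U ∨ ω f = b) := by
        by_contra hcon
        exact hfT ((hTm f).2 ⟨hfU, hcon⟩)
      exact h1.2.resolve_left (fun h => h hfU)
    · rw [hω f hfU]
      exact hb g f (hjn g hg') hfU (adjF_symm hfg)
  have hWU : ∀ z, z ∈ W → z ∈ U := fun z hz => ((hTm z).1 (hWT z hz)).1
  have hBi : Bi ω q := by
    obtain ⟨-, h1, h2, h3, h4⟩ := hq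
    exact ⟨by rw [hω _ h1]; exact h3, by rw [hω _ h2]; exact h4⟩
  obtain ⟨n1, n2⟩ := ne W ω b hcol q hBi (fun h => hq.2.1 (hWU _ h)) (fun h => hq.2.2.1 (hWU _ h))
    (i + 1)
  intro hph
  have hphW : ph (orb ω q i) ∈ W := (hWm _).2 (jn_box hBT hr0 hph)
  rcases ph_next ω q i with h | h
  · exact n1 (h ▸ hphW)
  · exact n2 (h ▸ hphW)

/-- the bound is small for large `M` -/
theorem exM {C a c1 : ℝ} (ha : 0 < a) (hc1 : 0 < c1) :
    ∃ M0 : ℤ, ∀ M : ℤ, M0 ≤ M → C * (16 / (M : ℝ)) ^ a < c1 := by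
  have h1 : Filter.Tendsto (fun M : ℤ => (16 : ℝ) / (M : ℝ)) Filter.atTop (nhds 0) :=
    tendsto_const_nhds.div_atTop tendsto_intCast_atTop_atTop
  have h2 : Filter.Tendsto (fun M : ℤ => C * ((16 : ℝ) / (M : ℝ)) ^ a) Filter.atTop (nhds 0) := by
    have h3 := (h1.rpow_const (p := a) (Or.inr ha.le)).const_mul C
    rwa [Real.zero_rpow ha.ne', mul_zero] at h3
  obtain ⟨M0, hM0⟩ := Filter.eventually_atTop.1 (h2.eventually_lt_const hc1)
  exact ⟨M0, fun M hM => hM0 M hM⟩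

/-- the face ahead of a tip in a fresh box is on its boundary layer -/
theorem tip_layer {U : Finset Fc} {col : Fc → Bool} {p : Pos} {v : Fc} {R : ℤ}
    (hp : IsTip U col p) (hBU : Bx v R ⊆ U) :
    R ≤ |(ph p).1 - v.1| ∨ R ≤ |(ph p).2 - v.2| := by
  by_contra hcon
  push Not at hcon
  apply hp.2.1
  apply hBU
  have h := C0.king (adj_hl p)
  rw [C0_X, C0_X, C0_Y, C0_Y] at h
  rw [Pool.Agent.H75.Lv.mem_Bx]
  rw [abs_lt, abs_lt] at hcon
  rw [abs_le, abs_le] at h ⊢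
  omega

/-- the probability bound, for a given colour `b` of the ring -/
theorem vis_lt {C a c1 : ℝ} (hC : 0 < C) (ha : 0 < a) {b : Bool} {M : ℤ} (hM : 100 ≤ M)
    (hsm : C * (16 / (M : ℝ)) ^ a < c1) (D : Finset Fc → Finset Fc → Fc → Prop)
    (hD : ∀ (U w : Finset Fc) (col : Fc → Bool) (z : Fc), w ⊆ U → D U w z →
      z ∉ U ∨ mixc U w col z = b)
    (hbd : ∀ (U : Finset Fc) (c0 : Fc) (r R : ℕ), 1 ≤ r → r ≤ R →
      Pr U (fun ω => ¬ ∃ w, r ≤ w ∧ 2 * w ≤ R ∧ AX c0 w (2 * w) (D U ω)) ≤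
        C * ((r : ℝ) / R) ^ a)
    {U : Finset Fc} {col : Fc → Bool} {p : Pos} {v : Fc} {R S : ℤ} (hp : IsTip U col p)
    (hBU : Bx v R ⊆ U) (hS : M ≤ S) (hR : M * S ≤ R)
    (hb : ∀ f g, Jn {a | a ∈ U ∧ a ∉ Bx (ph p) S} v f → g ∉ U → adjF f g → col g = b) :
    vis U col (Bx v (R / 2)) < c1 := by
  have hR1 : 100 * S ≤ R := le_trans (mul_le_mul_of_nonneg_right hM (by omega)) hR
  obtain ⟨r0, hr0⟩ := Int.eq_ofNat_of_zero_le (show 0 ≤ S + 1 by omega)
  obtain ⟨R0, hR0⟩ := Int.eq_ofNat_of_zero_le (show 0 ≤ R / 4 by omega)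
  have hbd' := hbd U (ph p) r0 R0 (by omega) (by omega)
  have hlay := tip_layer hp hBU
  have h1 : vis U col (Bx v (R / 2)) ≤
      Pr U (fun ω => ¬ ∃ w, r0 ≤ w ∧ 2 * w ≤ R0 ∧ AX (ph p) w (2 * w) (D U ω)) := by
    unfold vis
    apply Pr_mono
    rintro w hw ⟨q, i, f, hq, hf, -, hask, -, -⟩ ⟨n, hn1, hn2, hn3⟩
    have hout : ∀ f ∈ Bx v (R / 2), f.1 < (ph p).1 - (2 * n : ℕ) ∨ (ph p).1 + (2 * n : ℕ) < f.1 ∨
        f.2 < (ph p).2 - (2 * n : ℕ) ∨ (ph p).2 + (2 * n : ℕ) < f.2 := by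
      intro f hf
      rw [Pool.Agent.H75.Lv.mem_Bx, abs_le, abs_le] at hf
      rw [le_abs, le_abs] at hlay
      push_cast
      omega
    refine no_ask (ω := mixc U w col) (S := S) (b := b) (w := n) ?_ hb (by omega) (by omega) ?_ hout
      (hn3.mono fun z hz => hD U w col z hw hz) hq i (hask ▸ hf)
    · intro f hf
      unfold mixc
      rw [if_neg hf]
    · intro f hf
      apply hBU
      rw [Pool.Agent.H75.Lv.mem_Bx, abs_le, abs_le] at hf ⊢
      omega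
  refine lt_of_le_of_lt h1 (lt_of_le_of_lt hbd' (lt_of_le_of_lt ?_ hsm))
  apply mul_le_mul_of_nonneg_left _ hC.le
  apply Real.rpow_le_rpow (by positivity) _ ha.le
  have hR0p : (0 : ℝ) < R0 := by
    have : (0 : ℤ) < R0 := by omega
    exact_mod_cast this
  have hMp : (0 : ℝ) < M := by
    have : (0 : ℤ) < M := by omega
    exact_mod_cast this
  rw [div_le_div_iff₀ hR0p hMp]
  have e : (r0 : ℤ) * M ≤ 16 * R0 := by
    have e1 : (r0 : ℤ) * M ≤ 2 * S * M := mul_le_mul_of_nonneg_right (by omega) (by omega)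
    have e2 : 2 * S * M = 2 * (M * S) := by ring
    rw [e2] at e1
    omega
  exact_mod_cast e

/-- **TBP**. -/
theorem tbp : TBP := by
  obtain ⟨C1, a1, hC1, ha1, H1⟩ := no_black_ring
  obtain ⟨C2, a2, hC2, ha2, H2⟩ := no_white_ring
  intro c1 hc1
  obtain ⟨M1, hM1⟩ := exM (C := C1) ha1 hc1
  obtain ⟨M2, hM2⟩ := exM (C := C2) ha2 hc1
  refine ⟨max 100 (max M1 M2), le_max_left _ _, ?_⟩
  obtain ⟨M, hM⟩ : ∃ M, M = max 100 (max M1 M2) := ⟨_, rfl⟩
  rw [← hM]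
  have hM0 : 100 ≤ M := by rw [hM]; exact le_max_left _ _
  have hM1' : M1 ≤ M := by rw [hM]; exact (le_max_left _ _).trans (le_max_right _ _)
  have hM2' : M2 ≤ M := by rw [hM]; exact (le_max_right _ _).trans (le_max_right _ _)
  intro U col p v R S _ hp _ hBU hS hR hvis c
  by_contra hcon
  have hb : ∀ f g, Jn {a | a ∈ U ∧ a ∉ Bx (ph p) S} v f → g ∉ U → adjF f g → col g = !c := by
    intro f g h1 h2 h3
    by_contra h4
    apply hcon
    refine ⟨f, g, h1, h2, h3, ?_⟩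
    cases c <;> cases hg : col g <;> simp_all
  cases c
  · -- black ring
    refine absurd hvis (not_le.2 (vis_lt (b := true) hC1 ha1 hM0 (hM1 M hM1')
      (fun U w z => z ∈ w ∨ z ∉ U) ?_ (fun U c0 r R => H1 U c0 r R) hp hBU hS hR hb))
    intro U w col z hw hz
    by_cases hzU : z ∈ U
    · right
      unfold mixc
      rw [if_pos hzU]
      exact decide_eq_true (hz.resolve_right (fun h => h hzU))
    · exact Or.inl hzU
  · -- white ring
    refine absurd hvis (not_le.2 (vis_lt (b := false) hC2 ha2 hM0 (hM2 M hM2')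
      (fun U w z => z ∉ w) ?_ (fun U c0 r R => H2 U c0 r R) hp hBU hS hR hb))
    intro U w col z hw hz
    by_cases hzU : z ∈ U
    · right
      unfold mixc
      rw [if_pos hzU]
      exact decide_eq_false hz
    · exact Or.inl hzU

end Pool.Agent.H20.Per
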